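import Pool.Agent.Helper85.REC.Stmts14
import Mathlib.LinearAlgebra.Lagrange

/-!
# REC row SPN: tensor products of symmetric powers span [helper88]
-/

set_option autoImplicit false

open scoped Classical
open NumberField Polynomial

namespace REC

section SPN

variable {l : ℕ} [Fact l.Prime]

/-- coefficients extracting the coefficient of `X ^ C` -/
noncomputable def spA (l : ℕ) [Fact l.Prime] (C : ℕ) (a : ZMod l) : ZMod l :=
  (Lagrange.basis (Finset.univ : Finset (ZMod l)) id a).coeff C

theorem spA_sum (C k : ℕ) (hk : k < l) :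
    ∑ a : ZMod l, spA l C a * a ^ k = if k = C then 1 else 0 := by
  have h1 : (Polynomial.X ^ k : (ZMod l)[X]).degree < (Finset.univ : Finset (ZMod l)).card := by
    rw [Polynomial.degree_X_pow, Finset.card_univ, ZMod.card]
    exact_mod_cast hk
  have h2 := Lagrange.eq_interpolate (s := (Finset.univ : Finset (ZMod l))) (v := id)
    (f := (Polynomial.X ^ k : (ZMod l)[X])) (Function.injective_id.injOn) h1
  have h3 := congrArg (fun p => p.coeff C) h2
  simp only [Lagrange.interpolate_apply, Polynomial.finsetSum_coeff, Polynomial.coeff_C_mul,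
    Polynomial.eval_pow, Polynomial.eval_X, id, Polynomial.coeff_X_pow] at h3
  have h4 : (∑ a : ZMod l, spA l C a * a ^ k) =
      ∑ a : ZMod l, a ^ k * (Lagrange.basis (Finset.univ : Finset (ZMod l)) id a).coeff C := by
    apply Finset.sum_congr rfl
    intro a _
    rw [mul_comm]; rfl
  rw [h4]
  have h5 : (if C = k then (1 : ZMod l) else 0) = if k = C then 1 else 0 := by
    by_cases h : k = C
    · subst h; simp
    · rw [if_neg h, if_neg (fun hh => h hh.symm)]
  rw [← h5, h3]

/-- upper unipotent matrix -/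
def spU (a : ZMod l) : Matrix (Fin 2) (Fin 2) (ZMod l) := !![1, a; 0, 1]

/-- the Weyl element -/
def spW : Matrix (Fin 2) (Fin 2) (ZMod l) := !![0, -1; 1, 0]

theorem spU_det (a : ZMod l) : (spU a).det = 1 := by simp [spU, Matrix.det_fin_two_of]

theorem spW_det : (spW : Matrix (Fin 2) (Fin 2) (ZMod l)).det = 1 := by
  simp [spW, Matrix.det_fin_two_of]

theorem symM_spU (c : ℕ) (a : ZMod l) (i j : Fin (c + 1)) :
    symM c (spU a) i j = a ^ ((j : ℕ) - (i : ℕ)) * (((j : ℕ).choose (i : ℕ) : ℕ) : ZMod l) := by
  unfold symM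
  rw [Matrix.of_apply]
  have e1 : (C ((spU a) 0 0) + C ((spU a) 1 0) * Polynomial.X : (ZMod l)[X]) = 1 := by
    simp [spU]
  have e2 : (C ((spU a) 0 1) + C ((spU a) 1 1) * Polynomial.X : (ZMod l)[X]) =
        Polynomial.X + C a := by
    simp [spU, add_comm]
  rw [e1, e2, one_pow, one_mul, Polynomial.coeff_X_add_C_pow]

theorem symM_spW (c : ℕ) (i j : Fin (c + 1)) :
    symM c (spW : Matrix (Fin 2) (Fin 2) (ZMod l)) i j =
      if (i : ℕ) = c - (j : ℕ) then (-1) ^ (j : ℕ) else 0 := by
  unfold symM
  rw [Matrix.of_apply]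
  have e1 : (C ((spW : Matrix (Fin 2) (Fin 2) (ZMod l)) 0 0) +
      C ((spW : Matrix (Fin 2) (Fin 2) (ZMod l)) 1 0) * Polynomial.X : (ZMod l)[X]) =
        Polynomial.X := by
    simp [spW]
  have e2 : (C ((spW : Matrix (Fin 2) (Fin 2) (ZMod l)) 0 1) +
      C ((spW : Matrix (Fin 2) (Fin 2) (ZMod l)) 1 1) * Polynomial.X : (ZMod l)[X]) =
        C (-1) := by
    simp [spW]
  rw [e1, e2, ← C_pow, Polynomial.coeff_mul_C, Polynomial.coeff_X_pow]
  split_ifs <;> simp

/-- the coefficient of `a ^ k` of `symM c (spU a)` -/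
noncomputable def spD (l : ℕ) [Fact l.Prime] (c k : ℕ) : Matrix (Fin (c + 1)) (Fin (c + 1)) (ZMod l) :=
  Matrix.of fun i j => if (j : ℕ) - (i : ℕ) = k then (((j : ℕ).choose (i : ℕ) : ℕ) : ZMod l) else 0

theorem spD_eq (c k : ℕ) (hc : c < l) :
    spD l c k = ∑ a : ZMod l, spA l k a • symM c (spU a) := by
  ext i j
  rw [Matrix.sum_apply]
  simp only [spD, Matrix.of_apply, Matrix.smul_apply, smul_eq_mul, symM_spU]
  have hlt : (j : ℕ) - (i : ℕ) < l := by have := j.2; omega
  have := spA_sum (l := l) k ((j : ℕ) - (i : ℕ)) hlt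
  simp only [← mul_assoc]
  rw [← Finset.sum_mul, this]
  split_ifs <;> simp

/-- the span of the matrices of `SL_2` -/
noncomputable def spS (l : ℕ) [Fact l.Prime] (c : ℕ) :
    Submodule (ZMod l) (Matrix (Fin (c + 1)) (Fin (c + 1)) (ZMod l)) :=
  Submodule.span (ZMod l) {z | ∃ g : Matrix (Fin 2) (Fin 2) (ZMod l), g.det = 1 ∧ z = symM c g}

theorem spS_mul (hF : ST_SYF) (c : ℕ) {x y : Matrix (Fin (c + 1)) (Fin (c + 1)) (ZMod l)}
    (hx : x ∈ spS l c) (hy : y ∈ spS l c) : x * y ∈ spS l c := by
  unfold spS at hx hy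
  induction hx using Submodule.span_induction with
  | mem x hx =>
    obtain ⟨g, hg, rfl⟩ := hx
    induction hy using Submodule.span_induction with
    | mem y hy =>
      obtain ⟨g', hg', rfl⟩ := hy
      refine Submodule.subset_span ⟨g * g', ?_, ?_⟩
      · rw [Matrix.det_mul, hg, hg', mul_one]
      · exact ((hF (ZMod l)).1 c g g').symm
    | zero => rw [mul_zero]; exact Submodule.zero_mem _
    | add y z _ _ h1 h2 => rw [mul_add]; exact Submodule.add_mem _ h1 h2
    | smul a y _ h => rw [mul_smul_comm]; exact Submodule.smul_mem _ _ h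
  | zero => rw [zero_mul]; exact Submodule.zero_mem _
  | add y z _ _ h1 h2 => rw [add_mul]; exact Submodule.add_mem _ h1 h2
  | smul a y _ h => rw [smul_mul_assoc]; exact Submodule.smul_mem _ _ h

theorem spD_mem (c k : ℕ) (hc : c < l) : spD l c k ∈ spS l c := by
  rw [spD_eq c k hc]
  exact Submodule.sum_mem _ fun a _ => Submodule.smul_mem _ _
    (Submodule.subset_span ⟨spU a, spU_det a, rfl⟩)

theorem spW_mem (c : ℕ) : symM c (spW : Matrix (Fin 2) (Fin 2) (ZMod l)) ∈ spS l c :=
  Submodule.subset_span ⟨spW, spW_det, rfl⟩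

theorem spS_top (hF : ST_SYF) (c : ℕ) (hc : c < l) : spS l c = ⊤ := by
  have hlast : ((Fin.last c : Fin (c + 1)) : ℕ) = c := Fin.val_last c
  -- E_{0 c}
  have h0c : (Matrix.single 0 (Fin.last c) (1 : ZMod l) :
      Matrix (Fin (c + 1)) (Fin (c + 1)) (ZMod l)) ∈ spS l c := by
    have : (Matrix.single 0 (Fin.last c) (1 : ZMod l) :
      Matrix (Fin (c + 1)) (Fin (c + 1)) (ZMod l)) = spD l c c := by
      ext i j
      simp only [spD, Matrix.of_apply, Matrix.single_apply]
      by_cases h : 0 = i ∧ Fin.last c = j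
      · obtain ⟨rfl, rfl⟩ := h
        simp
      · rw [if_neg h]
        rw [if_neg]
        intro hh
        apply h
        have h1 := i.2
        have h2 := j.2
        constructor
        · apply Fin.ext
          simp only [Fin.val_zero]
          by_contra h3
          omega
        · apply Fin.ext
          rw [hlast]; omega
    rw [this]; exact spD_mem c c hc
  have h00 : (Matrix.single 0 0 (1 : ZMod l) :
      Matrix (Fin (c + 1)) (Fin (c + 1)) (ZMod l)) ∈ spS l c := by
    have : (Matrix.single 0 0 (1 : ZMod l) :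
      Matrix (Fin (c + 1)) (Fin (c + 1)) (ZMod l)) =
        Matrix.single 0 (Fin.last c) (1 : ZMod l) * symM c spW := by
      ext i j
      by_cases hi : i = 0
      · subst hi
        rw [Matrix.single_mul_apply_same, one_mul, symM_spW, Matrix.single_apply]
        by_cases hj : j = 0
        · subst hj; simp
        · rw [if_neg (fun h => hj h.2.symm), if_neg]
          intro hh
          apply hj
          apply Fin.ext
          simp only [Fin.val_zero]
          rw [hlast] at hh
          have := j.2
          omega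
      · rw [Matrix.single_mul_apply_of_ne _ _ _ _ _ hi, Matrix.single_apply,
          if_neg (fun h => hi h.1.symm)]
    rw [this]; exact spS_mul hF c h0c (spW_mem c)
  have h0k : ∀ k : Fin (c + 1), (Matrix.single 0 k (1 : ZMod l) :
      Matrix (Fin (c + 1)) (Fin (c + 1)) (ZMod l)) ∈ spS l c := by
    intro k
    have : (Matrix.single 0 k (1 : ZMod l) :
      Matrix (Fin (c + 1)) (Fin (c + 1)) (ZMod l)) =
        Matrix.single 0 0 (1 : ZMod l) * spD l c (k : ℕ) := by
      ext i j
      by_cases hi : i = 0
      · subst hi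
        rw [Matrix.single_mul_apply_same, one_mul, Matrix.single_apply]
        simp only [spD, Matrix.of_apply, Fin.val_zero, Nat.sub_zero, Nat.choose_zero_right,
          Nat.cast_one, true_and]
        by_cases hj : k = j
        · subst hj; simp
        · rw [if_neg hj, if_neg (fun hh => hj (Fin.ext hh.symm))]
      · rw [Matrix.single_mul_apply_of_ne _ _ _ _ _ hi, Matrix.single_apply,
          if_neg (fun h => hi h.1.symm)]
    rw [this]; exact spS_mul hF c h00 (spD_mem c _ hc)
  have hck : ∀ k : Fin (c + 1), (Matrix.single (Fin.last c) k (1 : ZMod l) :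
      Matrix (Fin (c + 1)) (Fin (c + 1)) (ZMod l)) ∈ spS l c := by
    intro k
    have : (Matrix.single (Fin.last c) k (1 : ZMod l) :
      Matrix (Fin (c + 1)) (Fin (c + 1)) (ZMod l)) =
        symM c spW * Matrix.single 0 k (1 : ZMod l) := by
      ext i j
      by_cases hj : j = k
      · subst hj
        rw [Matrix.mul_single_apply_same, mul_one, symM_spW, Matrix.single_apply]
        by_cases hi : Fin.last c = i
        · subst hi; simp
        · rw [if_neg (fun h => hi h.1), if_neg]
          intro hh
          apply hi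
          apply Fin.ext
          simp only [Fin.val_zero, Nat.sub_zero] at hh
          rw [hlast, hh]
      · rw [Matrix.mul_single_apply_of_ne _ _ _ _ _ hj, Matrix.single_apply,
          if_neg (fun h => hj h.2.symm)]
    rw [this]; exact spS_mul hF c (spW_mem c) (h0k k)
  have hjk : ∀ j k : Fin (c + 1), (Matrix.single j k (1 : ZMod l) :
      Matrix (Fin (c + 1)) (Fin (c + 1)) (ZMod l)) ∈ spS l c := by
    intro j k
    have hne : ((c.choose (j : ℕ) : ℕ) : ZMod l) ≠ 0 := by
      rw [Ne, ZMod.natCast_eq_zero_iff]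
      intro hdvd
      have hjc : (j : ℕ) ≤ c := by have := j.2; omega
      have h1 : l ∣ c.factorial := by
        rw [← Nat.choose_mul_factorial_mul_factorial hjc, mul_assoc]
        exact Dvd.dvd.mul_right hdvd _
      have h2 := (Nat.Prime.dvd_factorial (Fact.out : l.Prime)).mp h1
      omega
    have : ((c.choose (j : ℕ) : ℕ) : ZMod l) • (Matrix.single j k (1 : ZMod l) :
      Matrix (Fin (c + 1)) (Fin (c + 1)) (ZMod l)) =
        spD l c (c - (j : ℕ)) * Matrix.single (Fin.last c) k (1 : ZMod l) := by
      ext i m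
      by_cases hm : m = k
      · subst hm
        rw [Matrix.mul_single_apply_same, mul_one, Matrix.smul_apply, Matrix.single_apply]
        simp only [spD, Matrix.of_apply, and_true, hlast, smul_eq_mul]
        by_cases hi : j = i
        · subst hi; simp
        · rw [if_neg hi, mul_zero, if_neg]
          intro hh
          apply hi
          apply Fin.ext
          have h1 := i.2
          have h2 := j.2
          omega
      · rw [Matrix.mul_single_apply_of_ne _ _ _ _ _ hm, Matrix.smul_apply, Matrix.single_apply,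
          if_neg (fun h => hm h.2.symm), smul_zero]
    have h3 := Submodule.smul_mem (spS l c) (((c.choose (j : ℕ) : ℕ) : ZMod l)⁻¹)
      (this ▸ spS_mul hF c (spD_mem c _ hc) (hck k))
    rwa [smul_smul, inv_mul_cancel₀ hne, one_smul] at h3
  rw [eq_top_iff]
  intro x _
  rw [Matrix.matrix_eq_sum_single x]
  refine Submodule.sum_mem _ fun i _ => Submodule.sum_mem _ fun j _ => ?_
  have : (Matrix.single i j (x i j) : Matrix (Fin (c + 1)) (Fin (c + 1)) (ZMod l)) =
      x i j • Matrix.single i j 1 := by
    rw [Matrix.smul_single, smul_eq_mul, mul_one]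
  rw [this]
  exact Submodule.smul_mem _ _ (hjk i j)

/-- pure tensors -/
noncomputable def piT {t : ℕ} (c : Fin t → ℕ)
    (M : ∀ i, Matrix (Fin (c i + 1)) (Fin (c i + 1)) (ZMod l)) :
    Matrix (∀ i, Fin (c i + 1)) (∀ i, Fin (c i + 1)) (ZMod l) :=
  Matrix.of fun x y => ∏ i, M i (x i) (y i)

theorem piT_update {t : ℕ} (c : Fin t → ℕ)
    (M : ∀ i, Matrix (Fin (c i + 1)) (Fin (c i + 1)) (ZMod l)) (a : Fin t)
    (X : Matrix (Fin (c a + 1)) (Fin (c a + 1)) (ZMod l)) (x y : ∀ i, Fin (c i + 1)) :
    piT c (Function.update M a X) x y =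
      X (x a) (y a) * ∏ i ∈ Finset.univ.erase a, M i (x i) (y i) := by
  simp only [piT, Matrix.of_apply]
  rw [← Finset.mul_prod_erase Finset.univ _ (Finset.mem_univ a), Function.update_self]
  congr 1
  apply Finset.prod_congr rfl
  intro i hi
  rw [Function.update_of_ne (Finset.ne_of_mem_erase hi)]

theorem piT_mem (hF : ST_SYF) {t : ℕ} (c : Fin t → ℕ) (hc : ∀ i, c i < l)
    (W : Submodule (ZMod l) (Matrix (∀ i, Fin (c i + 1)) (∀ i, Fin (c i + 1)) (ZMod l)))
    (hW : ∀ g : Fin t → Matrix (Fin 2) (Fin 2) (ZMod l), (∀ i, (g i).det = 1) → tenM c g ∈ W)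
    (s : Finset (Fin t)) :
    ∀ M : ∀ i, Matrix (Fin (c i + 1)) (Fin (c i + 1)) (ZMod l),
      (∀ i, i ∉ s → ∃ g : Matrix (Fin 2) (Fin 2) (ZMod l), g.det = 1 ∧ M i = symM (c i) g) →
      piT c M ∈ W := by
  induction s using Finset.induction_on with
  | empty =>
    intro M hM
    have hM' : ∀ i, ∃ g : Matrix (Fin 2) (Fin 2) (ZMod l), g.det = 1 ∧ M i = symM (c i) g :=
      fun i => hM i (Finset.notMem_empty i)
    choose g hg1 hg2 using hM'
    have : piT c M = tenM c g := by
      ext x y
      simp only [piT, tenM, Matrix.of_apply, hg2]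
    rw [this]
    exact hW g hg1
  | insert a s has ih =>
    intro M hM
    have hall : ∀ X ∈ spS l (c a), piT c (Function.update M a X) ∈ W := by
      intro X hX
      unfold spS at hX
      induction hX using Submodule.span_induction with
      | mem X hX =>
        obtain ⟨g, hg, rfl⟩ := hX
        apply ih
        intro i hi
        by_cases hia : i = a
        · subst hia
          exact ⟨g, hg, by rw [Function.update_self]⟩
        · rw [Function.update_of_ne hia]
          apply hM
          intro hmem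
          rcases Finset.mem_insert.mp hmem with h | h
          · exact hia h
          · exact hi h
      | zero =>
        have : piT c (Function.update M a 0) = 0 := by
          ext x y
          rw [piT_update]; simp
        rw [this]; exact Submodule.zero_mem _
      | add X Y _ _ h1 h2 =>
        have : piT c (Function.update M a (X + Y)) =
            piT c (Function.update M a X) + piT c (Function.update M a Y) := by
          ext x y
          rw [Matrix.add_apply, piT_update, piT_update, piT_update, Matrix.add_apply, add_mul]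
        rw [this]; exact Submodule.add_mem _ h1 h2
      | smul b X _ h =>
        have : piT c (Function.update M a (b • X)) = b • piT c (Function.update M a X) := by
          ext x y
          rw [Matrix.smul_apply, piT_update, piT_update, Matrix.smul_apply, smul_eq_mul,
            smul_eq_mul, mul_assoc]
        rw [this]; exact Submodule.smul_mem _ _ h
    have := hall (M a) (by rw [spS_top hF (c a) (hc a)]; exact Submodule.mem_top)
    rwa [Function.update_eq_self] at this

/-- the test family -/
noncomputable def spG {t : ℕ} (i₀ : Fin t) (a : ZMod l) : Fin t → Matrix (Fin 2) (Fin 2) (ZMod l) :=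
  fun i => if i = i₀ then spU a else 1

theorem spG_det {t : ℕ} (i₀ : Fin t) (a : ZMod l) (i : Fin t) : (spG i₀ a i).det = 1 := by
  unfold spG; split_ifs
  · exact spU_det a
  · exact Matrix.det_one

theorem sum_spG (hF : ST_SYF) {t : ℕ} (d : Fin t → ℕ) (hd : ∀ i, d i < l) (i₀ : Fin t) (C : ℕ)
    (x y : ∀ i, Fin (d i + 1)) :
    (∑ a : ZMod l, spA l C a • tenM d (spG i₀ a)) x y =
      spD l (d i₀) C (x i₀) (y i₀) * ∏ i ∈ Finset.univ.erase i₀,
        (1 : Matrix (Fin (d i + 1)) (Fin (d i + 1)) (ZMod l)) (x i) (y i) := by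
  rw [Matrix.sum_apply, spD_eq _ _ (hd i₀), Matrix.sum_apply, Finset.sum_mul]
  apply Finset.sum_congr rfl
  intro a _
  rw [Matrix.smul_apply, Matrix.smul_apply, smul_eq_mul, smul_eq_mul, mul_assoc]
  congr 1
  simp only [tenM, Matrix.of_apply]
  rw [← Finset.mul_prod_erase Finset.univ _ (Finset.mem_univ i₀)]
  congr 1
  · simp [spG]
  · apply Finset.prod_congr rfl
    intro i hi
    have : spG i₀ a i = 1 := by simp [spG, Finset.ne_of_mem_erase hi]
    rw [this, (hF (ZMod l)).2.1]

theorem sum_spG_zero (hF : ST_SYF) {t : ℕ} (d : Fin t → ℕ) (hd : ∀ i, d i < l) (i₀ : Fin t) (C : ℕ)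
    (h : d i₀ < C) : ∑ a : ZMod l, spA l C a • tenM d (spG i₀ a) = 0 := by
  ext x y
  rw [sum_spG hF d hd]
  have : spD l (d i₀) C (x i₀) (y i₀) = 0 := by
    simp only [spD, Matrix.of_apply]
    rw [if_neg]
    have := (y i₀).2
    omega
  rw [this, zero_mul]; rfl

theorem sum_spG_ne (hF : ST_SYF) {t : ℕ} (d : Fin t → ℕ) (hd : ∀ i, d i < l) (i₀ : Fin t) (C : ℕ)
    (h : d i₀ = C) : ∑ a : ZMod l, spA l C a • tenM d (spG i₀ a) ≠ 0 := by
  intro h0
  have h1 := congrFun (congrFun h0 (fun _ => 0)) (fun i => if i = i₀ then Fin.last _ else 0)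
  rw [sum_spG hF d hd] at h1
  have h2 : ∏ i ∈ Finset.univ.erase i₀,
      (1 : Matrix (Fin (d i + 1)) (Fin (d i + 1)) (ZMod l)) ((fun _ => 0 : ∀ i, Fin (d i + 1)) i)
        ((fun i => if i = i₀ then Fin.last _ else 0 : ∀ i, Fin (d i + 1)) i) = 1 := by
    apply Finset.prod_eq_one
    intro i hi
    have hi' : i ≠ i₀ := Finset.ne_of_mem_erase hi
    show (1 : Matrix (Fin (d i + 1)) (Fin (d i + 1)) (ZMod l)) 0
      (if i = i₀ then Fin.last _ else 0) = 1
    rw [if_neg hi', Matrix.one_apply_eq]
  rw [h2, mul_one] at h1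
  simp only [spD, Matrix.of_apply, if_true, Fin.val_zero, Fin.val_last, Nat.sub_zero, h,
    Nat.choose_zero_right, Nat.cast_one] at h1
  exact one_ne_zero h1

end SPN

theorem st_SPN : ST_SYF → ST_SPN := by
  intro hF l t _ c hc
  constructor
  · rw [eq_top_iff]
    intro X _
    rw [Matrix.matrix_eq_sum_single X]
    refine Submodule.sum_mem _ fun x _ => Submodule.sum_mem _ fun y _ => ?_
    have e1 : (Matrix.single x y (X x y) :
        Matrix (∀ i, Fin (c i + 1)) (∀ i, Fin (c i + 1)) (ZMod l)) =
        X x y • Matrix.single x y 1 := by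
      rw [Matrix.smul_single, smul_eq_mul, mul_one]
    rw [e1]
    apply Submodule.smul_mem
    have e2 : (Matrix.single x y 1 :
        Matrix (∀ i, Fin (c i + 1)) (∀ i, Fin (c i + 1)) (ZMod l)) =
        piT c (fun i => Matrix.single (x i) (y i) 1) := by
      ext x' y'
      simp only [piT, Matrix.of_apply, Matrix.single_apply]
      by_cases h : x = x' ∧ y = y'
      · obtain ⟨rfl, rfl⟩ := h
        simp
      · rw [if_neg h]
        symm
        have : ∃ i, ¬ (x i = x' i ∧ y i = y' i) := by
          by_contra hcon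
          push Not at hcon
          exact h ⟨funext fun i => (hcon i).1, funext fun i => (hcon i).2⟩
        obtain ⟨i, hi⟩ := this
        exact Finset.prod_eq_zero (Finset.mem_univ i) (if_neg hi)
    rw [e2]
    refine piT_mem hF c hc _ (fun g hg => ?_) Finset.univ _
      (fun i hi => absurd (Finset.mem_univ i) hi)
    exact Submodule.subset_span ⟨g, hg, rfl⟩
  · intro c' hc' hne
    obtain ⟨i₀, hi₀⟩ := Function.ne_iff.mp hne
    set e := (Fintype.equivFin (ZMod l)).symm with he
    have key : ∀ (d : Fin t → ℕ) (C : ℕ),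
        ∑ b : Fin (Fintype.card (ZMod l)), spA l C (e b) • tenM d (spG i₀ (e b)) =
          ∑ a : ZMod l, spA l C a • tenM d (spG i₀ a) := by
      intro d C
      exact Equiv.sum_comp e (fun a => spA l C a • tenM d (spG i₀ a))
    rcases lt_or_gt_of_ne hi₀ with h | h
    · refine ⟨Fintype.card (ZMod l), fun b => spA l (c' i₀) (e b), fun b => spG i₀ (e b),
        fun b i => spG_det _ _ _, Or.inl ⟨?_, ?_⟩⟩
      · rw [key]; exact sum_spG_zero hF c hc i₀ _ h
      · rw [key]; exact sum_spG_ne hF c' hc' i₀ _ rfl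
    · refine ⟨Fintype.card (ZMod l), fun b => spA l (c i₀) (e b), fun b => spG i₀ (e b),
        fun b i => spG_det _ _ _, Or.inr ⟨?_, ?_⟩⟩
      · rw [key]; exact sum_spG_ne hF c hc i₀ _ rfl
      · rw [key]; exact sum_spG_zero hF c' hc' i₀ _ h

end REC
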