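import Pool.Agent.Helper85.REC.Stmts14

/-!
# REC row SYF: functoriality of symmetric powers and tensor products [helper88]
-/

set_option autoImplicit false

open scoped Classical
open NumberField Polynomial

namespace REC

/-- homogenization -/
noncomputable def syH {R : Type} [CommRing R] (A B : R[X]) (c : ℕ) (q : R[X]) : R[X] :=
  ∑ i ∈ Finset.range (c + 1), C (q.coeff i) * A ^ (c - i) * B ^ i

theorem syH_step {R : Type} [CommRing R] (A B : R[X]) (c : ℕ) (q : R[X]) (hq : q.natDegree ≤ c)
    (a b : R) : syH A B (c + 1) ((C a + C b * Polynomial.X) * q) =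
      (C a * A + C b * B) * syH A B c q := by
  have hc : q.coeff (c + 1) = 0 := Polynomial.coeff_eq_zero_of_natDegree_lt (by omega)
  have hcoef : ∀ i, ((C a + C b * Polynomial.X) * q).coeff (i + 1) =
      a * q.coeff (i + 1) + b * q.coeff i := by
    intro i
    rw [add_mul, Polynomial.coeff_add, Polynomial.coeff_C_mul, mul_assoc,
      Polynomial.coeff_C_mul, Polynomial.coeff_X_mul]
  have hcoef0 : ((C a + C b * Polynomial.X) * q).coeff 0 = a * q.coeff 0 := by
    rw [add_mul, Polynomial.coeff_add, Polynomial.coeff_C_mul, mul_assoc,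
      Polynomial.coeff_C_mul, Polynomial.coeff_X_mul_zero, mul_zero, add_zero]
  unfold syH
  rw [Finset.sum_range_succ', hcoef0]
  have h1 : ∀ i ∈ Finset.range (c + 1),
      C (((C a + C b * Polynomial.X) * q).coeff (i + 1)) * A ^ (c + 1 - (i + 1)) * B ^ (i + 1) =
      C a * (C (q.coeff (i + 1)) * A ^ (c - i) * B ^ (i + 1)) +
        C b * B * (C (q.coeff i) * A ^ (c - i) * B ^ i) := by
    intro i _
    rw [hcoef, Nat.add_sub_add_right, C_add, C_mul, C_mul, pow_succ]
    ring
  rw [Finset.sum_congr rfl h1, Finset.sum_add_distrib, ← Finset.mul_sum, ← Finset.mul_sum]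
  have h2 : ∑ i ∈ Finset.range (c + 1), C (q.coeff (i + 1)) * A ^ (c - i) * B ^ (i + 1) +
      C (q.coeff 0) * A ^ (c + 1) = A * ∑ i ∈ Finset.range (c + 1),
        C (q.coeff i) * A ^ (c - i) * B ^ i := by
    rw [Finset.sum_range_succ, hc, C_0, zero_mul, zero_mul, add_zero]
    rw [Finset.sum_range_succ' (fun i => C (q.coeff i) * A ^ (c - i) * B ^ i) c, mul_add,
      Finset.mul_sum]
    congr 1
    · apply Finset.sum_congr rfl
      intro i hi
      have hi' : i + 1 ≤ c := by
        have := Finset.mem_range.mp hi; omega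
      have : c - i = (c - (i + 1)) + 1 := by omega
      rw [this, pow_succ]; ring
    · rw [Nat.sub_zero, pow_zero, pow_succ]; ring
  calc _ = C a * (∑ i ∈ Finset.range (c + 1), C (q.coeff (i + 1)) * A ^ (c - i) * B ^ (i + 1) +
      C (q.coeff 0) * A ^ (c + 1)) + C b * B * ∑ i ∈ Finset.range (c + 1),
        C (q.coeff i) * A ^ (c - i) * B ^ i := by
        rw [C_mul, Nat.sub_zero, pow_zero]; ring
    _ = _ := by rw [h2]; ring

theorem natDegree_lin_pow {R : Type} [CommRing R] (a b : R) (m : ℕ) :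
    ((C a + C b * Polynomial.X : R[X]) ^ m).natDegree ≤ m := by
  refine (Polynomial.natDegree_pow_le).trans ?_
  have : (C a + C b * Polynomial.X : R[X]).natDegree ≤ 1 := by
    rw [add_comm]; exact Polynomial.natDegree_linear_le
  calc m * (C a + C b * Polynomial.X : R[X]).natDegree ≤ m * 1 := Nat.mul_le_mul_left _ this
    _ = m := mul_one m

theorem syH_pow1 {R : Type} [CommRing R] (A B : R[X]) (a' b' : R) (n : ℕ) :
    syH A B n ((C a' + C b' * Polynomial.X) ^ n) = (C a' * A + C b' * B) ^ n := by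
  induction n with
  | zero => simp [syH]
  | succ n ih =>
    rw [pow_succ', syH_step _ _ _ _ (natDegree_lin_pow _ _ _), ih, pow_succ']

theorem syH_pow2 {R : Type} [CommRing R] (A B : R[X]) (a b a' b' : R) (m n : ℕ) :
    syH A B (m + n) ((C a + C b * Polynomial.X) ^ m * (C a' + C b' * Polynomial.X) ^ n) =
      (C a * A + C b * B) ^ m * (C a' * A + C b' * B) ^ n := by
  induction m with
  | zero => simp [syH_pow1]
  | succ m ih =>
    have hd : ((C a + C b * Polynomial.X : R[X]) ^ m *
        (C a' + C b' * Polynomial.X) ^ n).natDegree ≤ m + n :=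
      (Polynomial.natDegree_mul_le).trans
        (add_le_add (natDegree_lin_pow _ _ _) (natDegree_lin_pow _ _ _))
    have e : m + 1 + n = (m + n) + 1 := by ring
    rw [e, pow_succ', mul_assoc, syH_step _ _ _ _ hd, ih, pow_succ', mul_assoc]

theorem symM_mul {R : Type} [CommRing R] (c : ℕ) (g g' : Matrix (Fin 2) (Fin 2) R) :
    symM c (g * g') = symM c g * symM c g' := by
  ext i j
  have hj : (c - (j : ℕ)) + (j : ℕ) = c := by have := j.2; omega
  set A : R[X] := C (g 0 0) + C (g 1 0) * Polynomial.X with hA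
  set B : R[X] := C (g 0 1) + C (g 1 1) * Polynomial.X with hB
  have hA' : C ((g * g') 0 0) + C ((g * g') 1 0) * Polynomial.X =
      C (g' 0 0) * A + C (g' 1 0) * B := by
    rw [hA, hB, Matrix.mul_apply, Matrix.mul_apply, Fin.sum_univ_two, Fin.sum_univ_two]
    simp only [C_add, C_mul]; ring
  have hB' : C ((g * g') 0 1) + C ((g * g') 1 1) * Polynomial.X =
      C (g' 0 1) * A + C (g' 1 1) * B := by
    rw [hA, hB, Matrix.mul_apply, Matrix.mul_apply, Fin.sum_univ_two, Fin.sum_univ_two]
    simp only [C_add, C_mul]; ring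
  have key := syH_pow2 A B (g' 0 0) (g' 1 0) (g' 0 1) (g' 1 1) (c - (j : ℕ)) (j : ℕ)
  rw [hj] at key
  have lhs : symM c (g * g') i j = ((C (g' 0 0) * A + C (g' 1 0) * B) ^ (c - (j : ℕ)) *
      (C (g' 0 1) * A + C (g' 1 1) * B) ^ (j : ℕ)).coeff (i : ℕ) := by
    simp only [symM, Matrix.of_apply]
    rw [hA', hB']
  rw [lhs, ← key, Matrix.mul_apply, syH, Polynomial.finsetSum_coeff]
  refine (Finset.sum_range _).trans ?_
  apply Finset.sum_congr rfl
  intro k _
  simp only [symM, Matrix.of_apply]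
  rw [mul_assoc, Polynomial.coeff_C_mul, ← hA, ← hB, mul_comm]

theorem symM_one {R : Type} [CommRing R] (c : ℕ) :
    symM c (1 : Matrix (Fin 2) (Fin 2) R) = 1 := by
  ext i j
  simp only [symM, Matrix.of_apply]
  have e1 : (C ((1 : Matrix (Fin 2) (Fin 2) R) 0 0) +
      C ((1 : Matrix (Fin 2) (Fin 2) R) 1 0) * Polynomial.X : R[X]) = 1 := by
    simp
  have e2 : (C ((1 : Matrix (Fin 2) (Fin 2) R) 0 1) +
      C ((1 : Matrix (Fin 2) (Fin 2) R) 1 1) * Polynomial.X : R[X]) = Polynomial.X := by
    simp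
  rw [e1, e2, one_pow, one_mul, Polynomial.coeff_X_pow, Matrix.one_apply]
  by_cases h : i = j
  · simp [h]
  · have : ¬ ((i : ℕ) = (j : ℕ)) := fun hh => h (Fin.ext hh)
    simp [h, this]

theorem symM_map {R R' : Type} [CommRing R] [CommRing R'] (f : R →+* R') (c : ℕ)
    (g : Matrix (Fin 2) (Fin 2) R) (i j : Fin (c + 1)) :
    f (symM c g i j) = symM c (g.map f) i j := by
  simp only [symM, Matrix.of_apply, Matrix.map_apply]
  rw [← Polynomial.coeff_map]
  simp only [Polynomial.map_mul, Polynomial.map_pow, Polynomial.map_add, Polynomial.map_C,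
    Polynomial.map_X]

theorem tenM_mul {R : Type} [CommRing R] (t : ℕ) (c : Fin t → ℕ)
    (g g' : Fin t → Matrix (Fin 2) (Fin 2) R) :
    tenM c (fun i => g i * g' i) = tenM c g * tenM c g' := by
  ext x y
  rw [Matrix.mul_apply]
  simp only [tenM, Matrix.of_apply]
  have : ∀ i, symM (c i) (g i * g' i) (x i) (y i) =
      ∑ k, symM (c i) (g i) (x i) k * symM (c i) (g' i) k (y i) := by
    intro i; rw [symM_mul, Matrix.mul_apply]
  simp only [this]
  rw [Finset.prod_univ_sum, Fintype.piFinset_univ]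
  apply Finset.sum_congr rfl
  intro z _
  rw [Finset.prod_mul_distrib]

theorem tenM_one {R : Type} [CommRing R] (t : ℕ) (c : Fin t → ℕ) :
    tenM c (fun _ => (1 : Matrix (Fin 2) (Fin 2) R)) = 1 := by
  ext x y
  simp only [tenM, Matrix.of_apply, symM_one, Matrix.one_apply]
  by_cases h : x = y
  · simp [h]
  · rw [if_neg h]
    obtain ⟨i, hi⟩ := Function.ne_iff.mp h
    exact Finset.prod_eq_zero (Finset.mem_univ i) (if_neg hi)

theorem st_SYF : ST_SYF := by
  intro R _
  refine ⟨fun c g g' => symM_mul c g g', fun c => symM_one c, fun t c g g' => tenM_mul t c g g',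
    fun t c => tenM_one t c, ?_, ?_⟩
  · intro t m c g g' B B'
    unfold tpc
    rw [tenM_mul]
    exact Matrix.mul_kronecker_mul _ _ _ _
  · intro R' _ f t m c g B
    have h : (tenM c g).map f = tenM c (fun i => (g i).map f) := by
      ext x y
      simp only [tenM, Matrix.map_apply, Matrix.of_apply, map_prod, symM_map]
    refine ⟨h, ?_⟩
    unfold tpc
    rw [← h]
    ext ⟨x, a⟩ ⟨y, b⟩
    simp only [Matrix.map_apply, Matrix.kroneckerMap_apply, map_mul]

end REC
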